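import Pool.Agent.H39R2.GonP.Defs

set_option autoImplicit false

/-!
# The complexes `Γ(X,n) ⊗ ℚ` of a regular curve `X`

The groups `B_n(F)` and the complexes `Γ(F,n) ⊗ ℚ` of a field `F` are defined in
`Pool/Agent/H39R2/GonP/Defs.lean`.
-/

namespace Pool.Agent.TH358.BG

open GonP

/-- The terms of the complexes `Γ(E,n) ⊗ ℚ` (`n ≥ 1`): the term of degree `i` is
`GT E (n + 1 - i) (i - 1)`. -/
def GT (E : Type) [Field E] : ℕ → ℕ → Type
  | 0, _ => PUnit
  | 1, j => LQ E (j + 1)
  | (m + 2), j => TQ E (m + 2) j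

noncomputable instance (E : Type) [Field E] : ∀ m j, AddCommGroup (GT E m j)
  | 0, _ => inferInstanceAs (AddCommGroup PUnit)
  | 1, j => inferInstanceAs (AddCommGroup (LQ E (j + 1)))
  | (m + 2), j => inferInstanceAs (AddCommGroup (TQ E (m + 2) j))

/-- the differentials of the complexes `Γ(E,n) ⊗ ℚ` -/
noncomputable def gd {E : Type} [Field E] (D : Differentials E) :
    ∀ m j, GT E (m + 1) j → GT E m (j + 1)
  | 0, _ => fun _ => PUnit.unit
  | 1, j => D.e j
  | (m + 2), j => D.d m j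

/-- The contribution `(Γ(κ,n-1) ⊗ ℚ)^{i-2}` of a closed point with residue field `κ` to the term of
degree `i` of `Γ(X,n) ⊗ ℚ` (`n ≥ 2`), where `m = n + 1 - i`, `j = i - 1`. -/
def RT (κ : Type) [Field κ] : ℕ → ℕ → Type
  | _, 0 => PUnit
  | _, 1 => PUnit
  | m, (j + 2) => GT κ (m + 1) j

noncomputable instance (κ : Type) [Field κ] : ∀ m j, AddCommGroup (RT κ m j)
  | _, 0 => inferInstanceAs (AddCommGroup PUnit)
  | _, 1 => inferInstanceAs (AddCommGroup PUnit)
  | m, (j + 2) => inferInstanceAs (AddCommGroup (GT κ (m + 1) j))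

/-- the differentials of `Γ(κ,n-1) ⊗ ℚ`, reindexed -/
noncomputable def rd {κ : Type} [Field κ] (D : Differentials κ) :
    ∀ m j, RT κ (m + 1) j → RT κ m (j + 1)
  | _, 0 => fun _ => PUnit.unit
  | m, 1 => fun _ => (0 : GT κ (m + 1) 0)
  | m, (j + 2) => gd D (m + 1) j

theorem gd_zero {E : Type} [Field E] (D : Differentials E) (m j : ℕ) : gd D m j 0 = 0 := by
  match m with
  | 0 => rfl
  | 1 => exact (D.e_spec j).1.map_zero
  | (m + 2) => exact (D.d_spec m j).1.map_zero

theorem rd_zero {κ : Type} [Field κ] (D : Differentials κ) (m j : ℕ) : rd D m j 0 = 0 := by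
  match j with
  | 0 => rfl
  | 1 => rfl
  | (j + 2) => exact gd_zero D (m + 1) j

/-- The term of degree `i` of `Γ(X,n) ⊗ ℚ`, `n ≥ 2`, where `m = n + 1 - i`, `j = i - 1`, for a
regular curve `X` with function field `F` and set of closed points `X`, where `κ x` is the residue
field of `x ∈ X` (`Π₀ x, V x` is the direct sum of the groups `V x`, `x ∈ X`). -/
abbrev XT (F : Type) [Field F] {X : Type} (κ : X → Type) [∀ x, Field (κ x)] (m j : ℕ) : Type :=
  GT F m j × Π₀ x, RT (κ x) m j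

/-- the type of the residue maps `∂` (all homomorphisms of abelian groups are allowed) -/
abbrev Res (F : Type) [Field F] {X : Type} (κ : X → Type) [∀ x, Field (κ x)] : Type :=
  ∀ m j, GT F (m + 1) j →+ Π₀ x, RT (κ x) m (j + 1)

section

variable {F : Type} [Field F] {X : Type} {κ : X → Type} [∀ x, Field (κ x)]

/-- The differential `(a, b) ↦ (d a, ∂ a - d b)` of the total complex `Γ(X,n) ⊗ ℚ` of
`∂ : Γ(F,n) → ∐_x Γ(κ(x),n-1)[-1]`. -/
noncomputable def tot (DF : Differentials F) (Dκ : ∀ x, Differentials (κ x)) (res : Res F κ)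
    (m j : ℕ) (z : XT F κ (m + 1) j) : XT F κ m (j + 1) :=
  (gd DF m j z.1,
    res m j z.1 - z.2.mapRange (fun x => rd (Dκ x) m j) (fun x => rd_zero (Dκ x) m j))

/-- The restriction `Γ(X,n) ⊗ ℚ → Γ(F,n) ⊗ ℚ` to the generic point is an isomorphism of complexes
for all `n ≥ 2`: it commutes with the differentials, and is bijective in each degree. -/
def GenericIso (DF : Differentials F) (Dκ : ∀ x, Differentials (κ x)) (res : Res F κ) : Prop :=
  (∀ m j (z : XT F κ (m + 1) j), (tot DF Dκ res m j z).1 = gd DF m j z.1) ∧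
  ∀ m j, Function.Bijective (fun z : XT F κ m j => z.1)

/-- All the complexes `Γ(X,n) ⊗ ℚ`, `n ≥ 2`, are acyclic (exactness in degree `1`, in the degrees
`2, ..., n`, and in degree `n + 1`). -/
def XAcyclic (DF : Differentials F) (Dκ : ∀ x, Differentials (κ x)) (res : Res F κ) : Prop :=
  (∀ m z, tot DF Dκ res (m + 1) 0 z = 0 → z = 0) ∧
  (∀ m j z, tot DF Dκ res m (j + 1) z = 0 ↔ ∃ w, tot DF Dκ res (m + 1) j w = z) ∧
  ∀ j z, ∃ w, tot DF Dκ res 0 (j + 1) w = z

end

end Pool.Agent.TH358.BG
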