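import Pool.Agent.TH358.BG.Defs
import Pool.Agent.TH358.GP.Cls
import Pool.Agent.TH358.GP.Fin
import Pool.Agent.H39R2.GonP.Bridge

set_option autoImplicit false

/-!
# Open subsets of the projective line over an algebraic closure of `F_p`
-/

namespace Pool.Agent.TH358.BG

open GonP Pool.Agent.TH358.GP

section fp

variable (p : ℕ) [Fact p.Prime] (k : Type) [Field k] [Algebra (ZMod p) k]
  [Algebra.IsAlgebraic (ZMod p) k]

include p

theorem finite_sub (c : k) : ∃ K : Subfield k, Finite K ∧ c ∈ K := by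
  have hint : IsIntegral (ZMod p) c := (Algebra.IsAlgebraic.isAlgebraic c).isIntegral
  let K := IntermediateField.adjoin (ZMod p) {c}
  have : FiniteDimensional (ZMod p) K := IntermediateField.adjoin.finiteDimensional hint
  have : Finite K := Module.finite_of_finite (ZMod p)
  exact ⟨K.toSubfield, this, IntermediateField.mem_adjoin_simple_self (ZMod p) c⟩

theorem sub_GT (m j : ℕ) : Subsingleton (GT k m j) := by
  have hch : CharP k p := charP_of_injective_algebraMap (algebraMap (ZMod p) k).injective p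
  match m with
  | 0 => exact inferInstanceAs (Subsingleton PUnit)
  | 1 =>
    refine ⟨fun a b => ?_⟩
    exact (lq_kill p (finite_sub p k) j a).trans (lq_kill p (finite_sub p k) j b).symm
  | (m + 2) =>
    refine ⟨fun a b => ?_⟩
    exact (tq_kill p (finite_sub p k) m j a).trans (tq_kill p (finite_sub p k) m j b).symm

theorem sub_RT (m j : ℕ) : Subsingleton (RT k m j) := by
  match j with
  | 0 => exact inferInstanceAs (Subsingleton PUnit)
  | 1 => exact inferInstanceAs (Subsingleton PUnit)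
  | (j + 2) => exact sub_GT p k (m + 1) j

theorem nonempty_diff : Nonempty (Differentials k) := by
  have h1 : ∀ m j, Subsingleton (TQ k (m + 2) j) := fun m j => sub_GT p k (m + 2) j
  have h2 : ∀ j, Subsingleton (LQ k (j + 1)) := fun j => sub_GT p k 1 j
  refine ⟨{
    d := fun m j _ => 0
    d_spec := fun m j => ⟨⟨fun _ _ => (h1 m (j + 1)).elim _ _, fun _ _ => (h1 m (j + 1)).elim _ _⟩,
      fun _ => rfl, fun _ => rfl, fun x y _ => (h1 m (j + 1)).elim _ _⟩
    e := fun j _ => 0
    e_spec := fun j => ⟨⟨fun _ _ => (h2 (j + 1)).elim _ _, fun _ _ => (h2 (j + 1)).elim _ _⟩,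
      fun _ => rfl, fun _ => rfl, fun _ => rfl, fun x y _ _ => (h2 (j + 1)).elim _ _⟩ }⟩

end fp

theorem sub_sum (p : ℕ) [Fact p.Prime] {X : Type} (κ : X → Type) [∀ x, Field (κ x)]
    [∀ x, Algebra (ZMod p) (κ x)] [∀ x, Algebra.IsAlgebraic (ZMod p) (κ x)] (m j : ℕ) :
    Subsingleton (Π₀ x, RT (κ x) m j) :=
  ⟨fun a b => DFinsupp.ext fun x => (sub_RT p (κ x) m j).elim _ _⟩

theorem generic (p : ℕ) [Fact p.Prime] (F : Type) [Field F] {X : Type} (κ : X → Type)
    [∀ x, Field (κ x)] [∀ x, Algebra (ZMod p) (κ x)] [∀ x, Algebra.IsAlgebraic (ZMod p) (κ x)]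
    (DF : Differentials F) (Dκ : ∀ x, Differentials (κ x)) (res : Res F κ) :
    GenericIso DF Dκ res := by
  have hs := sub_sum p κ
  refine ⟨fun m j z => rfl, fun m j => ⟨fun z w h => Prod.ext h ((hs m j).elim _ _), fun a => ?_⟩⟩
  exact ⟨(a, 0), rfl⟩

theorem xacyclic (F : Type) [Field F] {X : Type} (κ : X → Type)
    [∀ x, Field (κ x)] (DF : Differentials F)
    (Dκ : ∀ x, Differentials (κ x)) (res : Res F κ) (hG : GenericIso DF Dκ res) :
    XAcyclic DF Dκ res ↔ DF.Acyclic := by
  have hfst : ∀ m j (z : XT F κ (m + 1) j), (tot DF Dκ res m j z).1 = gd DF m j z.1 := hG.1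
  have hext : ∀ m j (z w : XT F κ m j), z.1 = w.1 → z = w := fun m j z w h => (hG.2 m j).1 h
  constructor
  · intro hX
    have key1 : ∀ m (a : GT F (m + 2) 0), gd DF (m + 1) 0 a = 0 → a = 0 := by
      intro m a ha
      have := hX.1 m (a, 0) (hext _ _ _ _ (by rw [hfst]; exact ha))
      exact congrArg Prod.fst this
    have key2 : ∀ m j (a : GT F (m + 1) (j + 1)), gd DF m (j + 1) a = 0 ↔
        ∃ b, gd DF (m + 1) j b = a := by
      intro m j a
      constructor
      · intro ha
        obtain ⟨w, hw⟩ := (hX.2.1 m j (a, 0)).1 (hext _ _ _ _ (by rw [hfst]; exact ha))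
        refine ⟨w.1, ?_⟩
        rw [← hfst, hw]
      · rintro ⟨b, rfl⟩
        have := (hX.2.1 m j (tot DF Dκ res (m + 1) j (b, 0))).2 ⟨_, rfl⟩
        have h2 := congrArg Prod.fst this
        rw [hfst, hfst] at h2
        exact h2
    refine ⟨fun m a b h => ?_, fun a b h => ?_, fun m j => ?_, fun j => ?_, fun j a => ?_⟩
    · have h0 : DF.d m 0 (a - b) = 0 := by
        rw [(DF.d_spec m 0).1.map_sub, h, sub_self]
      exact sub_eq_zero.1 (key1 (m + 1) (a - b) h0)
    · have h0 : DF.e 0 (a - b) = 0 := by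
        rw [(DF.e_spec 0).1.map_sub, h, sub_self]
      exact sub_eq_zero.1 (key1 0 (a - b) h0)
    · exact fun a => key2 (m + 2) j a
    · exact fun a => key2 1 j a
    · exact (key2 0 j a).1 rfl
  · intro hA
    refine ⟨fun m z h => ?_, fun m j => ?_, fun j z => ?_⟩
    · apply hext
      have h1 : gd DF (m + 1) 0 z.1 = 0 := by
        rw [← hfst, h]
        rfl
      have h2 : gd DF (m + 1) 0 z.1 = gd DF (m + 1) 0 0 := by rw [h1, gd_zero]
      match m, z, h2 with
      | 0, z, h2 => exact hA.2.1 h2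
      | (m + 1), z, h2 => exact hA.1 m h2
    · have hG : Function.Exact (gd DF (m + 1) j) (gd DF m (j + 1)) := by
        match m with
        | 0 =>
          intro y
          constructor
          · intro _
            exact hA.2.2.2.2 j y
          · intro _
            rfl
        | 1 => exact hA.2.2.2.1 j
        | (m + 2) => exact hA.2.2.1 m j
      intro z
      constructor
      · intro h
        have h1 : gd DF m (j + 1) z.1 = 0 := by
          rw [← hfst, h]
          rfl
        obtain ⟨a, ha⟩ := (hG z.1).1 h1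
        refine ⟨(a, 0), hext _ _ _ _ ?_⟩
        rw [hfst]
        exact ha
      · rintro ⟨w, rfl⟩
        apply hext
        rw [hfst, hfst]
        exact (hG _).2 ⟨w.1, rfl⟩
    · exact ⟨0, hext _ _ _ _ rfl⟩

/-- `H^1(Γ(X,n) ⊗ ℚ) = 0` for `n ≥ 2` if the function field is in the class -/
theorem degreeOne (F : Type) [i : Field F] (h : RationalClass F i) {X : Type} (κ : X → Type)
    [∀ x, Field (κ x)] (DF : Differentials F) (Dκ : ∀ x, Differentials (κ x)) (res : Res F κ)
    (m : ℕ) (z : XT F κ (m + 2) 0) (hz : tot DF Dκ res (m + 1) 0 z = 0) : z = 0 := by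
  obtain ⟨⟨D, hu, hd, he⟩, -⟩ := main_class' F h
  obtain rfl := hu DF
  have h1 : gd DF (m + 1) 0 z.1 = 0 := congrArg Prod.fst hz
  have h2 : gd DF (m + 1) 0 z.1 = gd DF (m + 1) 0 0 := by rw [h1, gd_zero]
  have h3 : z.1 = 0 := by
    match m, z, h2 with
    | 0, z, h2 => exact he h2
    | (m + 1), z, h2 => exact hd m h2
  refine Prod.ext h3 (DFinsupp.ext fun x => ?_)
  rfl

theorem ratFunc (p : ℕ) [Fact p.Prime] (k : Type) [Field k] [IsAlgClosed k] [Algebra (ZMod p) k]
    [Algebra.IsAlgebraic (ZMod p) k] :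
    Nonempty (Differentials (RatFunc k)) ∧ ∀ D : Differentials (RatFunc k), D.Acyclic := by
  obtain ⟨⟨D⟩, h⟩ := H39Gon.main p k
  refine ⟨⟨ofD D⟩, fun D' => ?_⟩
  have h' : D' = ofD D := unique (ofD D) D'
  rw [h']
  exact ofD_acyclic D (h D)

end Pool.Agent.TH358.BG
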